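import Pool.Agent.Helper25_CN2.Stmts

/-!
Squad CN2: modules A_IND2 and B_SPN2 (variants of A_IND of helper50 and B_SPN of helper70)
-/

noncomputable section

namespace Pool.Agent.CN2.H58

open Pool.Agent.H25Cong Pool.Agent.CON Pool.Agent.CN2

theorem indepk' {p k : ℕ} [Fact p.Prime] {Q : Type} [AddCommGroup Q] [Module (ZMod p) Q]
    [Finite Q] (hcard : p ^ k < Nat.card Q) :
    ∃ β : Fin (k + 1) → Q, LinearIndependent (ZMod p) β := by
  have hfr : Nat.card Q = Nat.card (ZMod p) ^ Module.finrank (ZMod p) Q :=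
    Module.natCard_eq_pow_finrank
  rw [Nat.card_zmod] at hfr
  have h7 : k + 1 ≤ Module.finrank (ZMod p) Q := by
    by_contra h
    have h1 : Module.finrank (ZMod p) Q ≤ k := by omega
    have h2 := Nat.pow_le_pow_right (Fact.out : p.Prime).pos h1
    rw [← hfr] at h2
    omega
  let β := Module.finBasis (ZMod p) Q
  exact ⟨_, β.linearIndependent.comp _ (Fin.castLE_injective h7)⟩

/-- k + 1 independent elements of a large elementary abelian group -/
theorem indepk {p k : ℕ} (hp : p.Prime) {Q : Type} [AddCommGroup Q] (htor : ∀ q : Q, p • q = 0)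
    (hcard : p ^ k < Nat.card Q) :
    ∃ β : Fin (k + 1) → Q, ∀ z : Fin (k + 1) → ℤ, ∑ i, z i • β i = 0 → ∀ i, (p : ℤ) ∣ z i := by
  have : Fact p.Prime := ⟨hp⟩
  let inst : Module (ZMod p) Q := AddCommGroup.zmodModule htor
  have : Finite Q := by
    refine Nat.finite_of_card_ne_zero ?_
    intro h0
    rw [h0] at hcard
    exact absurd hcard (Nat.not_lt_zero _)
  obtain ⟨β, hli⟩ := indepk' hcard
  refine ⟨β, fun z hz i => ?_⟩
  have h1 : ∑ i, (z i : ZMod p) • β i = 0 := by
    rw [← hz]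
    exact Finset.sum_congr rfl fun i _ => Int.cast_smul_eq_zsmul _ _ _
  exact (ZMod.intCast_zmod_eq_zero_iff_dvd _ _).1 (Fintype.linearIndependent_iff.1 hli _ h1 i)

/-- **A_IND2** -/
theorem a_IND2 : A_IND2 := by
  intro n L p k hL hp hidx
  let R : AddSubgroup L.toAddSubgroup := (Rad L p).toAddSubgroup.addSubgroupOf L.toAddSubgroup
  have hmem : ∀ x : L.toAddSubgroup, x ∈ R ↔ ∀ y ∈ L, ∃ k : ℤ, B (x : V n) y = p * k := by
    intro x
    rw [AddSubgroup.mem_addSubgroupOf]
    exact ⟨fun h => h.2, fun h => ⟨x.2, h⟩⟩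
  obtain ⟨β, hβ⟩ := indepk hp (Q := L.toAddSubgroup ⧸ R) (by
    intro q
    obtain ⟨x, rfl⟩ := QuotientAddGroup.mk_surjective q
    rw [← QuotientAddGroup.mk_nsmul, QuotientAddGroup.eq_zero_iff, hmem]
    intro y hy
    obtain ⟨k, hk⟩ := hL.int x x.2 y hy
    refine ⟨k, ?_⟩
    have h1 : ((p • x : L.toAddSubgroup) : V n) = (p : ℝ) • (x : V n) := by
      rw [AddSubgroup.coe_nsmul, Nat.cast_smul_eq_nsmul]
    rw [h1, B_smul_left, hk]) hidx
  choose c hc using fun i : Fin (k + 1) => QuotientAddGroup.mk_surjective (β i)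
  refine ⟨fun i => (c i : V n), fun i => (c i).2, ?_⟩
  intro z hz i
  refine hβ z ?_ i
  have h3 : (QuotientAddGroup.mk' R) (∑ i, z i • c i) = ∑ i, z i • β i := by
    rw [map_sum]
    refine Finset.sum_congr rfl fun i _ => ?_
    rw [map_zsmul, QuotientAddGroup.mk'_apply, hc i]
  rw [← h3, QuotientAddGroup.mk'_apply, QuotientAddGroup.eq_zero_iff, hmem]
  intro y hy
  obtain ⟨j, hj⟩ := hz y hy
  refine ⟨j, ?_⟩
  rw [← hj]
  congr 1
  rw [AddSubgroup.val_finsetSum]
  refine Finset.sum_congr rfl fun i _ => ?_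
  rw [AddSubgroup.coe_zsmul, Int.cast_smul_eq_zsmul]

section qf
variable {A : Type} [AddCommGroup A] {b : A → A → ℤ} {q : A → ℤ}

theorem add_right (h : QF b q) (x y z : A) : b x (y + z) = b x y + b x z := by
  rw [h.symm, h.add_left, h.symm y, h.symm z]

theorem zero_left (h : QF b q) (y : A) : b 0 y = 0 := by
  have := h.add_left 0 0 y
  rw [add_zero] at this
  linarith

/-- the form as an additive map -/
def lin (h : QF b q) (y : A) : A →+ ℤ where
  toFun x := b x y
  map_zero' := zero_left h y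
  map_add' x z := h.add_left x z y

theorem smul_left (h : QF b q) (t : ℤ) (x y : A) : b (t • x) y = t * b x y := by
  have := map_zsmul (lin h y) t x
  simpa [lin] using this

theorem smul_right (h : QF b q) (t : ℤ) (x y : A) : b x (t • y) = t * b x y := by
  rw [h.symm, smul_left h, h.symm]

theorem q_smul (h : QF b q) (t : ℤ) (x : A) : q (t • x) = t ^ 2 * q x := by
  have h1 := h.self (t • x)
  rw [smul_left h, smul_right h, h.self x] at h1
  have : (2 : ℤ) * q (t • x) = 2 * (t ^ 2 * q x) := by rw [← h1]; ring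
  linarith

theorem sub_left (h : QF b q) (x y z : A) : b (x - y) z = b x z - b y z :=
  map_sub (lin h z) x y

end qf

/-- **B_SPN2** -/
theorem b_SPN2 : B_SPN2 := by
  intro A _ b q p u w y y' H h hp hu c1 c2 c3 c4 c5 hpH hH
  have : Fact p.Prime := ⟨hp⟩
  have zz : ∀ x : ℤ, (p : ℤ) ∣ x ↔ ((x : ℤ) : ZMod p) = 0 := fun x =>
    (ZMod.intCast_zmod_eq_zero_iff_dvd x p).symm
  -- the criterion
  have key : ∀ v y : A, ((q v : ℤ) : ZMod p) = 1 → ((b v y : ℤ) : ZMod p) = 1 → v ∈ H := by
    intro v y h1 h2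
    refine hH v ?_ ⟨y, ?_⟩
    · rw [zz]; push_cast; rw [h1]; ring
    · rw [zz, h2]
      exact one_ne_zero
  obtain ⟨a1, a2, a3⟩ := hu
  rw [zz] at a1 a2 a3 c1 c2 c3 c4 c5
  push_cast at a3
  have ww : ((b w w : ℤ) : ZMod p) = 0 := by rw [h.self]; push_cast; rw [a2]; ring
  have uu : ((b u u : ℤ) : ZMod p) = 0 := by rw [h.self]; push_cast; rw [a1]; ring
  have wu : ((b w u : ℤ) : ZMod p) = 1 := by rw [h.symm]; linear_combination a3
  -- the vectors v_z
  have m4 : ∀ z : A, ((b u z : ℤ) : ZMod p) = 0 → ((b w z : ℤ) : ZMod p) = 0 →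
      (u + (1 - q z) • w) + z ∈ H := by
    intro z r1 r2
    refine key _ w ?_ ?_
    · rw [h.q_add, h.q_add, q_smul h, smul_right h, h.add_left, smul_left h]
      push_cast
      linear_combination a1 + (1 - ((q z : ℤ) : ZMod p)) ^ 2 * a2 +
        (1 - ((q z : ℤ) : ZMod p)) * a3 + r1 + (1 - ((q z : ℤ) : ZMod p)) * r2
    · rw [h.add_left, h.add_left, smul_left h, h.symm z w]
      push_cast
      linear_combination a3 + (1 - ((q z : ℤ) : ZMod p)) * ww + r2
  have q0 : q 0 = 0 := by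
    have := h.self 0
    rw [zero_left h] at this
    linarith
  have m0 : u + w ∈ H := by
    have h1 := m4 0 (by rw [h.symm, zero_left h]; simp) (by rw [h.symm, zero_left h]; simp)
    rw [q0] at h1
    simpa using h1
  have m1 : ∀ z : A, ((b u z : ℤ) : ZMod p) = 0 → ((b w z : ℤ) : ZMod p) = 0 →
      z - q z • w ∈ H := by
    intro z r1 r2
    have h1 := H.sub_mem (m4 z r1 r2) m0
    have e : u + (1 - q z) • w + z - (u + w) = z - q z • w := by
      rw [sub_smul, one_smul]
      abel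
    rwa [e] at h1
  have hyy : b y y' • w ∈ H := by
    have h1 := m1 y c1 c3
    have h2 := m1 y' c2 c4
    have h3 := m1 (y + y') (by rw [add_right h]; push_cast; rw [c1, c2]; ring)
      (by rw [add_right h]; push_cast; rw [c3, c4]; ring)
    have h4 := H.sub_mem (H.add_mem h1 h2) h3
    have e : y - q y • w + (y' - q y' • w) - (y + y' - q (y + y') • w) = b y y' • w := by
      rw [h.q_add, add_smul, add_smul]
      abel
    rwa [e] at h4
  have hw0 : w ∈ H := by
    have hcop : IsCoprime (b y y') (p : ℤ) := by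
      rw [isCoprime_comm]
      refine (Nat.prime_iff_prime_int.1 hp).coprime_iff_not_dvd.2 ?_
      rw [zz]
      exact c5
    obtain ⟨α, β, hαβ⟩ := hcop
    have h1 := H.add_mem (H.zsmul_mem hyy α) (H.zsmul_mem (hpH w) β)
    rwa [smul_smul, smul_smul, ← add_smul, hαβ, one_smul] at h1
  have hu0 : u ∈ H := by
    have := H.sub_mem m0 hw0
    rwa [add_sub_cancel_right] at this
  rw [eq_top_iff]
  intro a _
  obtain ⟨y0, hy0⟩ : ∃ y0, y0 = a - (b a w) • u - (b a u) • w := ⟨_, rfl⟩
  have r1 : ((b u y0 : ℤ) : ZMod p) = 0 := by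
    rw [h.symm, hy0, sub_left h, sub_left h, smul_left h, smul_left h]
    push_cast
    linear_combination -((b a w : ℤ) : ZMod p) * uu - ((b a u : ℤ) : ZMod p) * wu
  have r2 : ((b w y0 : ℤ) : ZMod p) = 0 := by
    rw [h.symm, hy0, sub_left h, sub_left h, smul_left h, smul_left h]
    push_cast
    linear_combination -((b a w : ℤ) : ZMod p) * a3 - ((b a u : ℤ) : ZMod p) * ww
  have h5 := H.add_mem (m1 y0 r1 r2) (H.zsmul_mem hw0 (q y0))
  rw [sub_add_cancel] at h5
  have h6 := H.add_mem (H.add_mem h5 (H.zsmul_mem hu0 (b a w))) (H.zsmul_mem hw0 (b a u))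
  have e : y0 + b a w • u + b a u • w = a := by rw [hy0]; abel
  rwa [e] at h6

end Pool.Agent.CN2.H58

end
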