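import Pool.Agent.Helper25_CN2.Stmts
import Pool.Agent.Helper25_CON.PDLem

/-!
Squad CN2: module K_MME
-/

noncomputable section

namespace Pool.Agent.CN2.H58

open Pool.Agent.H25Cong Pool.Agent.CON Pool.Agent.CN2

/-- a bound without information in the case of equality -/
theorem jr_of_jb {M : Type} [AddCommGroup M] {b : M → M → ℤ} {C : Set M} {x : M} {j : ℤ}
    (h : JB b C x j) : JR b (AddSubgroup.closure C) x j (fun _ _ => True) := by
  rintro t ρ ⟨⟨z, hz, rfl⟩, h0, h4, hy⟩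
  exact ⟨h z hz ρ h0 h4 hy, fun _ => trivial⟩

theorem mid_rk {τ : Ty} (h : τ.mid) : 2 ≤ τ.rk := by
  cases τ with
  | A k => rcases h with h | h <;> simp only [Ty.rk] <;> omega
  | D k =>
    have : k = 4 := h
    simp only [Ty.rk]; omega
  | E k => exact absurd h (fun h => h)

/-- **K_MME** -/
theorem k_MME (hNOR : X_NOR) (hNON : E_NON) (hJ1 : E_J1) (hJ2 : E_J2) (hJ4 : E_J4) (hN2 : E_N2)
    (hORT : E_ORT) (hRK : T_RK) : K_MME := by
  intro M _ b k C s τ hb hC hbad i1 i2 i3 h12 hs1 hm1 hs2 hm2 hs3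
  -- the root of the first component
  have hroot : ∀ i, ¬ (2 : ℤ) ∣ s i → (τ i).mid → ∃ α ∈ C i, ∃ y ∈ C i, ¬ (2 : ℤ) ∣ b α y := by
    intro i hs hm
    obtain ⟨α, hα, γ, hγ, h⟩ := hNON M b (C i) (s i) hb (hC.irr i)
      ((hRK M b (C i) (s i) (τ i) hb (hC.irr i) (hC.ty i) 2).2 (mid_rk hm))
    exact ⟨α, hα, γ, hγ, by rw [h]; exact hs⟩
  have hsub : ∀ i, ∀ α ∈ C i, α ∈ AddSubgroup.closure (C i) :=
    fun i α hα => AddSubgroup.subset_closure hα
  obtain ⟨α1, hα1, y1, hy1, hay⟩ := hroot i1 hs1 hm1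
  obtain ⟨α2, hα2⟩ := (hC.irr i2).ne
  have n1 := (hC.irr i1).norm α1 hα1
  have n2 := (hC.irr i2).norm α2 hα2
  have hj1 : ∀ i, ∀ α ∈ C i, JR b (AddSubgroup.closure (C i)) α 1 (fun _ _ => True) :=
    fun i α hα => jr_of_jb (hJ1 M b (C i) α hb (hsub i α hα) ((hN2 M b (C i) (s i) hb
      (hC.irr i)).1 α hα))
  have hev : ∀ i, (2 : ℤ) ∣ s i → ∀ α ∈ C i, (4 : ℤ) ∣ b α α := by
    rintro i ⟨c, hc⟩ α hα
    exact ⟨c, by rw [(hC.irr i).norm α hα, hc]; ring⟩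
  have hj2 : ∀ i, (2 : ℤ) ∣ s i → ∀ α ∈ C i,
      JR b (AddSubgroup.closure (C i)) α 2 (fun _ _ => True) :=
    fun i hs α hα => jr_of_jb (hJ2 M b (C i) α hb (hsub i α hα) ((hN2 M b (C i) (s i) hb
      (hC.irr i)).1 α hα) (hev i hs α hα))
  have h13 : i1 ≠ i3 := fun h => hs1 (h ▸ hs3)
  have h23 : i2 ≠ i3 := fun h => hs2 (h ▸ hs3)
  have hn12 : (4 : ℤ) ∣ b α1 α1 + b α2 α2 := by
    rw [n1, n2]
    omega
  constructor
  · intro i4 h43 hs4
    have h14 : i1 ≠ i4 := fun h => hs1 (h ▸ hs4)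
    have h24 : i2 ≠ i4 := fun h => hs2 (h ▸ hs4)
    obtain ⟨α3, hα3⟩ := (hC.irr i3).ne
    obtain ⟨α4, hα4⟩ := (hC.irr i4).ne
    apply hbad
    refine hNOR M b k C s τ [(i1, α1, 1, fun _ _ => True), (i2, α2, 1, fun _ _ => True),
      (i3, α3, 2, fun _ _ => True), (i4, α4, 2, fun _ _ => True)] hb hC ?_ ?_ ?_ ?_ ?_
    · simp [h12, h13, h14, h23, h24, h43.symm]
    · intro a ha
      simp only [List.mem_cons, List.not_mem_nil, or_false] at ha
      rcases ha with rfl | rfl | rfl | rfl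
      · exact ⟨hsub _ _ hα1, hj1 _ _ hα1⟩
      · exact ⟨hsub _ _ hα2, hj1 _ _ hα2⟩
      · exact ⟨hsub _ _ hα3, hj2 _ hs3 _ hα3⟩
      · exact ⟨hsub _ _ hα4, hj2 _ hs4 _ hα4⟩
    · simp
    · have h3 := hev i3 hs3 α3 hα3
      have h4 := hev i4 hs4 α4 hα4
      simp only [List.map_cons, List.map_nil, List.sum_cons, List.sum_nil]
      omega
    · exact ⟨_, List.mem_cons_self, y1, hsub _ _ hy1, hay⟩
  · by_contra hrk
    obtain ⟨α3, hα3, β3, hβ3, h33⟩ := hORT M b (C i3) (s i3) hb (hC.irr i3)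
      ((hRK M b (C i3) (s i3) (τ i3) hb (hC.irr i3) (hC.ty i3) 3).2 (by omega))
    apply hbad
    refine hNOR M b k C s τ [(i1, α1, 1, fun _ _ => True), (i2, α2, 1, fun _ _ => True),
      (i3, α3 + β3, 4, fun _ _ => True)] hb hC ?_ ?_ ?_ ?_ ?_
    · simp [h12, h13, h23]
    · intro a ha
      simp only [List.mem_cons, List.not_mem_nil, or_false] at ha
      rcases ha with rfl | rfl | rfl
      · exact ⟨hsub _ _ hα1, hj1 _ _ hα1⟩
      · exact ⟨hsub _ _ hα2, hj1 _ _ hα2⟩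
      · exact ⟨AddSubgroup.add_mem _ (hsub _ _ hα3) (hsub _ _ hβ3),
          jr_of_jb (hJ4 M b (C i3) (s i3) α3 β3 hb (hC.irr i3) hs3 hα3 hβ3 h33)⟩
    · simp
    · have h3 := hev i3 hs3 α3 hα3
      have h4 := hev i3 hs3 β3 hβ3
      simp only [List.map_cons, List.map_nil, List.sum_cons, List.sum_nil]
      rw [hb.add_left, hb.add_right, hb.add_right, hb.symm β3 α3, h33]
      omega
    · exact ⟨_, List.mem_cons_self, y1, hsub _ _ hy1, hay⟩

end Pool.Agent.CN2.H58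

end
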