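import Pool.Agent.Helper25_CN2.Stmts
import Pool.Agent.Helper25_CON.PDLem

/-!
Squad CN2: module T_ADE
-/

noncomputable section

namespace Pool.Agent.CN2.H58

open Pool.Agent.H25Cong Pool.Agent.CON Pool.Agent.CN2

/-- the largest number with a bounded property -/
theorem exists_max {P : ℕ → Prop} {a N : ℕ} (ha : P a) (hN : ∀ n, P n → n ≤ N) :
    ∃ m, P m ∧ a ≤ m ∧ ∀ n, P n → n ≤ m := by
  classical
  refine ⟨Nat.findGreatest P N, Nat.findGreatest_spec (hN a ha) ha,
    Nat.le_findGreatest (hN a ha) ha, fun n hn => Nat.le_findGreatest (hN n hn) hn⟩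

/-- **T_ADE** -/
theorem t_ADE (hEXT : G_EXT) (hTYP : G_TYP) (_hFLP : G_FLP) (hA : G_A) (hRK : G_RK)
    (h4 : T_HN 4) (h7 : T_HN 7) (h5 : T_HE 5 6) (h6 : T_HE 6 7) (h8 : T_HE 8 8) : T_ADE := by
  intro M _ _ b C s hb hC
  obtain ⟨hr1, hr2, -, -⟩ := hRK M b C s hb hC
  by_cases h : ∀ F : Fin 4 → M, ¬ DFr b C s 4 F
  · -- type A
    obtain ⟨α, hα⟩ := hC.ne
    have h1 : ∃ v : Fin 1 → M, AFr b C s 1 v := by
      refine ⟨fun _ => α, fun _ => hα, fun i j hij => absurd (Subsingleton.elim i j) hij⟩
    obtain ⟨m, ⟨v, hv⟩, hm1, hmax⟩ := exists_max (P := fun n => ∃ v : Fin n → M, AFr b C s n v)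
      (N := Module.finrank ℤ M) h1 (by
        rintro n ⟨v, hv⟩
        have h2 := (hr1 n v hv).fintype_card_le_finrank
        rwa [Fintype.card_fin] at h2)
    refine ⟨.A m, hm1, v, hv, hA M b C s m v hb hC hm1 hv h ?_⟩
    intro v' hv'
    have := hmax (m + 1) ⟨v', hv'⟩
    omega
  · push Not at h
    obtain ⟨k, ⟨F, hF⟩, hk4, hmax⟩ := exists_max (P := fun n => ∃ F : Fin n → M, DFr b C s n F)
      (N := Module.finrank ℤ M) h (by
        rintro n ⟨F, hF⟩
        have h2 := (hr2 n F hF).fintype_card_le_finrank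
        rwa [Fintype.card_fin] at h2)
    have hmaxD : MaxD b C s k := by
      intro k' hk' F' hF'
      have := hmax k' ⟨F', hF'⟩
      omega
    have hs := hC.pos
    by_cases hh : ∃ α ∈ C, Half b s F α
    · obtain ⟨α, hα, hhalf⟩ := hh
      have hk8 : k ≤ 8 := by
        obtain ⟨ε, hε, hbε⟩ := hhalf
        have hne : ∀ i, b α (F i) ≠ 0 := by
          intro i
          rw [hbε]
          rcases hε i with h | h <;> rw [h] <;> simp <;> omega
        rcases hTYP M b C s k F α hb hC (by omega) hF hα with h1 | h1 | ⟨i0, -, h1⟩ | ⟨h1, -⟩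
        · exact absurd (h1 ⟨0, by omega⟩) (hne _)
        · exfalso
          obtain ⟨i, j, hij, h2⟩ := h1
          obtain ⟨l, hl1, hl2⟩ : ∃ l : Fin k, l ≠ i ∧ l ≠ j := by
            by_contra hcon
            push Not at hcon
            have h3 : (Finset.univ : Finset (Fin k)) ⊆ {i, j} := by
              intro l _
              rw [Finset.mem_insert, Finset.mem_singleton]
              by_cases hl : l = i
              · exact Or.inl hl
              · exact Or.inr (hcon l hl)
            have h4 := Finset.card_le_card h3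
            rw [Finset.card_univ, Fintype.card_fin] at h4
            have h5 := Finset.card_le_two (a := i) (b := j)
            omega
          have h3 : 2 * b α (F l) = 0 := by
            have e1 := hF.2.1 i l hl1.symm
            have e2 := hF.2.1 j l hl2.symm
            rw [← hb.zsmul_left]
            rcases h2 with h2 | h2 | h2
            · rw [h2, hb.add_left, e1, e2, add_zero]
            · rw [h2, hb.sub_left, e1, e2, sub_zero]
            · rw [h2, hb.neg_left, hb.add_left, e1, e2, add_zero, neg_zero]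
          have := hne l
          omega
        · exfalso
          obtain ⟨l, hl⟩ : ∃ l : Fin k, l ≠ i0 := by
            have : Nontrivial (Fin k) := Fin.nontrivial_iff_two_le.2 (by omega)
            exact exists_ne i0
          exact hne l (h1 l hl)
        · exact h1
      have hcases : k = 4 ∨ k = 5 ∨ k = 6 ∨ k = 7 ∨ k = 8 := by omega
      rcases hcases with rfl | rfl | rfl | rfl | rfl
      · exact absurd hhalf (h4 M b C s F α hb hC hF hmaxD hα)
      · exact ⟨_, h5 M b C s F α hb hC hF hmaxD hα hhalf⟩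
      · exact ⟨_, h6 M b C s F α hb hC hF hmaxD hα hhalf⟩
      · exact absurd hhalf (h7 M b C s F α hb hC hF hmaxD hα)
      · exact ⟨_, h8 M b C s F α hb hC hF hmaxD hα hhalf⟩
    · push Not at hh
      have hty : ∀ α ∈ C, (∀ i, b α (F i) = 0) ∨ InD F α := by
        intro α hα
        rcases hTYP M b C s k F α hb hC (by omega) hF hα with h1 | h1 | ⟨i0, h0, h1⟩ | ⟨h1, h2⟩
        · exact Or.inl h1
        · exact Or.inr h1
        · exfalso
          obtain ⟨F', hF'⟩ := hEXT M b C s k F α i0 hb hC (by omega) hF hα h0 h1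
          exact hmaxD (k + 1) (by omega) F' hF'
        · exact absurd h2 (hh α hα)
      have hconn := hC.conn {α | α ∈ C ∧ InD F α} (fun α hα => hα.1) (by
          have h01 : (⟨0, by omega⟩ : Fin k) ≠ ⟨1, by omega⟩ := by simp
          obtain ⟨⟨w, hw, hw2⟩, -⟩ := hF.2.2 ⟨0, by omega⟩ ⟨1, by omega⟩ h01
          exact ⟨w, hw, _, _, h01, Or.inl hw2⟩) (by
          rintro α ⟨hα, i, j, hij, h2⟩ β hβ hβn
          rcases hty β hβ with h3 | h3
          · have e1 : b (F i) β = 0 := by rw [hb.symm]; exact h3 i
            have e2 : b (F j) β = 0 := by rw [hb.symm]; exact h3 j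
            have h4 : 2 * b α β = 0 := by
              rw [← hb.zsmul_left]
              rcases h2 with h2 | h2 | h2
              · rw [h2, hb.add_left, e1, e2, add_zero]
              · rw [h2, hb.sub_left, e1, e2, sub_zero]
              · rw [h2, hb.neg_left, hb.add_left, e1, e2, add_zero, neg_zero]
            omega
          · exact absurd ⟨hβ, h3⟩ hβn)
      refine ⟨.D k, hk4, F, hF, fun α hα => ?_⟩
      rw [← hconn] at hα
      exact hα.2

end Pool.Agent.CN2.H58

end
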