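import Pool.Agent.Helper25_CN2.Stmts
import Pool.Agent.Helper25_CON.PDLem

/-!
Squad CN2: module T_FIX
-/

noncomputable section

namespace Pool.Agent.CN2.H58

open Pool.Agent.H25Cong Pool.Agent.CON Pool.Agent.CN2

/-- **T_FIX** -/
theorem t_FIX (hAX : J_AX) (hAM : J_AM) (hD : J_D) (hU : J_U) (hCAP : T_CAP) (hDIV : T_DIV)
    (hN2 : E_N2) : T_FIX := by
  intro M _ b C s τ hb hC hs hty hfix
  cases τ with
  | A k =>
    have hk : 6 ≤ k := hfix
    obtain ⟨-, v, hv, hin⟩ := hty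
    obtain ⟨h1, -, h2, h3, -⟩ := hAX M b C s k 4 v hb hC hs hv hin (by norm_num) ⟨2, rfl⟩
      (by omega)
    refine ⟨xA v 4, h1, ?_, h3, ?_⟩
    · push_cast at h2
      have h4 := dvd_add h2 (dvd_refl (4 : ℤ))
      rwa [sub_add_cancel] at h4
    · have h4 := hAM M b C s k 4 v hb hC hs hv hin (by norm_num) ⟨2, rfl⟩ (by omega)
      intro t ρ ht
      obtain ⟨h5, h6⟩ := h4 t ρ ht
      have e : ((4 : ℕ) : ℤ) / 2 = 2 := by norm_num
      rw [e] at h5 h6
      refine ⟨h5, fun h7 => ?_⟩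
      rcases h6 h7 with h8 | ⟨d, hd, hd2, -, hd4, -⟩
      · exact h8.1
      · exfalso
        push_cast at hd4
        have h9 : (3 : ℤ) ≤ (k : ℤ) + 1 - 4 := by
          have : (6 : ℤ) ≤ k := by exact_mod_cast hk
          linarith
        have h10 : (2 : ℤ) ≤ d - 1 := by omega
        nlinarith
  | D k =>
    have hk : 5 ≤ k := hfix
    obtain ⟨-, F, hF, hin⟩ := hty
    obtain ⟨x, h1, h2, h3, h4⟩ := hD M b C s k 4 F hb hC hs hF hin (by norm_num) ⟨2, rfl⟩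
      (by omega)
    have e : ((4 : ℕ) : ℤ) / 2 = 2 := by norm_num
    rw [e] at h4
    refine ⟨x, h1, ?_, h3, h4⟩
    push_cast at h2
    have h4 := dvd_add h2 (dvd_refl (4 : ℤ))
    rwa [sub_add_cancel] at h4
  | E k =>
    have hk : k ≠ 6 := hfix
    have hk' : k = 7 ∨ k = 8 := by
      obtain ⟨h, -⟩ := hty
      omega
    obtain ⟨x, h1, h2, h3⟩ := hCAP M b C s (.E k) hb hC hs hty trivial
    exact ⟨x, h1, h2, h3, hU M b C s x hb hC hs (hDIV M b C s k hb hC hty hk') h1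
      ((hN2 M b C s hb hC).2.2 x h1 h3) h2⟩

end Pool.Agent.CN2.H58

end
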