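import Pool.Agent.Helper25_CN2.Stmts
import Pool.Agent.Helper25_CON.PDLem

/-!
Squad CN2: modules X_NOR and X_EQU (from X_NEW and X_CMP)
-/

noncomputable section

namespace Pool.Agent.CN2.H58

open Pool.Agent.H25Cong Pool.Agent.CON Pool.Agent.CN2

section lists

variable {M : Type} [AddCommGroup M] {b : M → M → ℤ} {k : ℕ} {C : Fin k → Set M}
  {s : Fin k → ℤ} {τ : Fin k → Ty}

/-- different components are orthogonal -/
theorem ct_orth (hb : PD b) (hC : CT b C s τ) {i j : Fin k} (hij : i ≠ j) :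
    ∀ x ∈ AddSubgroup.closure (C i), ∀ y ∈ AddSubgroup.closure (C j), b x y = 0 :=
  hb.closure_orth fun x hx y hy => hC.orth i j hij x hx y hy

theorem list_orth (hb : PD b) (hC : CT b C s τ) (l : List (Tch k M))
    (hl : ∀ a ∈ l, a.2.1 ∈ AddSubgroup.closure (C a.1)) {i : Fin k}
    (hi : i ∉ l.map fun a => a.1) {y : M} (hy : y ∈ AddSubgroup.closure (C i)) :
    b (l.map fun a => a.2.1).sum y = 0 := by
  induction l with
  | nil => simpa using hb.zero_left y
  | cons a l ih =>
    have h1 : a.1 ≠ i := by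
      intro h
      exact hi (by simp [h])
    have h2 : i ∉ l.map fun a => a.1 := by
      intro h
      exact hi (by rw [List.map_cons]; exact List.mem_cons_of_mem _ h)
    rw [List.map_cons, List.sum_cons, hb.add_left,
      ih (fun a ha => hl a (List.mem_cons_of_mem _ ha)) h2,
      ct_orth hb hC h1 _ (hl a List.mem_cons_self) _ hy, add_zero]

theorem list_comp (hb : PD b) (hC : CT b C s τ) (l : List (Tch k M))
    (hn : (l.map fun a => a.1).Nodup)
    (hl : ∀ a ∈ l, a.2.1 ∈ AddSubgroup.closure (C a.1)) {a : Tch k M} (ha : a ∈ l)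
    {y : M} (hy : y ∈ AddSubgroup.closure (C a.1)) :
    b (l.map fun a => a.2.1).sum y = b a.2.1 y := by
  induction l with
  | nil => cases ha
  | cons c l ih =>
    rw [List.map_cons, List.nodup_cons] at hn
    rw [List.map_cons, List.sum_cons, hb.add_left]
    rcases List.mem_cons.1 ha with h | h
    · subst h
      rw [list_orth hb hC l (fun a ha => hl a (List.mem_cons_of_mem _ ha)) hn.1 hy, add_zero]
    · have h1 : c.1 ≠ a.1 := by
        intro h2
        apply hn.1
        rw [h2]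
        exact List.mem_map_of_mem h
      rw [ih hn.2 (fun a ha => hl a (List.mem_cons_of_mem _ ha)) h,
        ct_orth hb hC h1 _ (hl c List.mem_cons_self) _ hy, zero_add]

theorem list_norm (hb : PD b) (hC : CT b C s τ) (l : List (Tch k M))
    (hn : (l.map fun a => a.1).Nodup)
    (hl : ∀ a ∈ l, a.2.1 ∈ AddSubgroup.closure (C a.1)) :
    b (l.map fun a => a.2.1).sum (l.map fun a => a.2.1).sum =
      (l.map fun a => b a.2.1 a.2.1).sum := by
  induction l with
  | nil => simpa using hb.zero_left 0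
  | cons c l ih =>
    rw [List.map_cons, List.nodup_cons] at hn
    have hl' : ∀ a ∈ l, a.2.1 ∈ AddSubgroup.closure (C a.1) :=
      fun a ha => hl a (List.mem_cons_of_mem _ ha)
    have h1 := list_orth hb hC l hl' hn.1 (hl c List.mem_cons_self)
    rw [List.map_cons, List.sum_cons, List.map_cons, List.sum_cons, hb.add_left, hb.add_right,
      hb.add_right, ih hn.2 hl', h1, hb.symm c.2.1 (l.map fun a => a.2.1).sum, h1, add_zero,
      zero_add]

end lists

/-- **X_EQU** -/
theorem x_EQU (hNEW : X_NEW) (hCMP : X_CMP) : X_EQU := by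
  intro M _ b k C s τ l hb hC hbad hn hl h4 hnorm hodd
  obtain ⟨a, ha, y, hy, hay⟩ := hodd
  have hl' : ∀ a ∈ l, a.2.1 ∈ AddSubgroup.closure (C a.1) := fun a ha => (hl a ha).1
  obtain ⟨t, ρ, ht⟩ := hNEW M b (l.map fun a => a.2.1).sum hb hbad
    (by rw [list_norm hb hC l hn hl']; exact hnorm)
    ⟨y, by rw [list_comp hb hC l hn hl' ha hy]; exact hay⟩
  obtain ⟨-, T, -, -, -, hT⟩ := hCMP M b k C s τ l t ρ hb hC hn hl h4 ht
  obtain ⟨-, h0, h1, -, -⟩ := ht
  exact ⟨ρ, h0, h1, fun a ha => ⟨_, (hT a ha).2.2⟩⟩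

/-- **X_NOR** -/
theorem x_NOR (hNEW : X_NEW) (hCMP : X_CMP) : X_NOR := by
  intro M _ b k C s τ l hb hC hn hl h5 hnorm hodd
  by_contra hbad
  obtain ⟨a, ha, y, hy, hay⟩ := hodd
  have hl' : ∀ a ∈ l, a.2.1 ∈ AddSubgroup.closure (C a.1) := fun a ha => (hl a ha).1
  obtain ⟨t, ρ, ht⟩ := hNEW M b (l.map fun a => a.2.1).sum hb hbad
    (by rw [list_norm hb hC l hn hl']; exact hnorm)
    ⟨y, by rw [list_comp hb hC l hn hl' ha hy]; exact hay⟩
  obtain ⟨h4, -⟩ := hCMP M b k C s τ l t ρ hb hC hn hl (by omega) ht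
  omega

end Pool.Agent.CN2.H58

end
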